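import Pool.Agent.Lib.MP_1a91b9_ntE.C.PerE

/-!
# MP_1a91b9_nt: the formula modulo 2 from the residue class of the value of the L-series

For every squarefree `δ`: `g₁ √3 / Ω = x T / 16` with `T` the product of the Tamagawa numbers and a rational
number `x` with odd denominator, whose numerator is odd if and only if the residue class of the normalised
value of `L` is not zero.
-/

set_option autoImplicit false

namespace Pool.Agent.Lib.MP_1a91b9_ntS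

open NumberField IsDedekindDomain WeierstrassCurve WithZero Pool.Agent.Lib.MP_1a91b9_ntT
open Pool.Agent.Lib.MP_1a91b9_ntH Pool.Agent.Lib.MP_1a91b9_ntH.C Pool.Agent.Lib.MP_1a91b9_ntH2
open Pool.Agent.Lib.MP_1a91b9_ntE
open Pool.Agent.Lib.MP_1a91b9_ntT.S9 (tam normFactor period)
open scoped Classical

section val
variable {A : ValuationSubring ℂ}

private theorem pers_comap (hA : Two A) : Two (A.comap (starRingEnd ℂ)) := by
  intro h
  apply hA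
  rw [ValuationSubring.mem_comap, map_inv₀, map_ofNat] at h
  exact h

private theorem pers_conj_le {x : ℂ} (h : (A.comap (starRingEnd ℂ)).valuation x ≤ 1) :
    A.valuation ((starRingEnd ℂ) x) ≤ 1 := by
  rw [ValuationSubring.valuation_le_one_iff, ValuationSubring.mem_comap] at h
  rwa [ValuationSubring.valuation_le_one_iff]

private theorem pers_conj {x : ℂ} (h : (A.comap (starRingEnd ℂ)).valuation x = 1) :
    A.valuation ((starRingEnd ℂ) x) = 1 := by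
  have h0 : x ≠ 0 := by
    rintro rfl
    rw [map_zero] at h
    exact zero_ne_one h
  have h3 := pers_conj_le h.le
  have h4 : A.valuation ((starRingEnd ℂ) x⁻¹) ≤ 1 :=
    pers_conj_le (by rw [map_inv₀, h, inv_one])
  rw [map_inv₀, map_inv₀] at h4
  refine le_antisymm h3 ?_
  have h5 : A.valuation ((starRingEnd ℂ) x) ≠ 0 := by
    rw [Valuation.ne_zero_iff]
    exact (map_ne_zero _).2 h0
  exact (inv_le_one₀ (zero_lt_iff.2 h5)).1 h4

private theorem pers_odd (hA : Two A) {n : ℕ} (hn : Odd n) : A.valuation (n : ℂ) = 1 := by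
  have h := S3.v_odd hA (n := (n : ℤ)) (by exact_mod_cast hn)
  simpa using h

private theorem pers_pow {y : ℂ} {n : ℕ} (hn : n ≠ 0) (h : A.valuation (y ^ n) = 1) :
    A.valuation y = 1 := by
  rw [map_pow] at h
  exact (pow_eq_one_iff_of_nonneg zero_le hn).1 h

/-- The square of the absolute value, a unit. -/
theorem normsq_unit (hA : Two A) {y : ℂ}
    (h : ∀ A : ValuationSubring ℂ, Two A → A.valuation y = 1) :
    A.valuation ((‖y‖ ^ 2 : ℝ) : ℂ) = 1 := by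
  rw [Complex.ofReal_pow, ← Complex.conj_mul', map_mul, pers_conj (h _ (pers_comap hA)), h A hA,
    one_mul]

/-- The square of the absolute value, not a unit. -/
theorem normsq_lt (hA : Two A) {y : ℂ}
    (h : ∀ A : ValuationSubring ℂ, Two A → A.valuation y < 1) :
    A.valuation ((‖y‖ ^ 2 : ℝ) : ℂ) < 1 := by
  rw [Complex.ofReal_pow, ← Complex.conj_mul', map_mul, mul_comm]
  exact mul_lt_one_of_lt_of_le (h A hA) (pers_conj_le (h _ (pers_comap hA)).le)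

/-- The value of `‖d‖` above `2`, `d` odd. -/
theorem norm_em_unit (hA : Two A) {d : 𝓞 K} (h2 : (2 : 𝓞 K) ∣ d - 1) :
    A.valuation ((‖em d‖ : ℝ) : ℂ) = 1 := by
  refine pers_pow (n := 2) two_ne_zero ?_
  have h3 := Nz_eq d
  have h4 : ((‖em d‖ : ℝ) : ℂ) ^ 2 = ((Nz d : ℕ) : ℂ) := by
    rw [← Complex.ofReal_pow]
    have h5 : ‖em d‖ ^ 2 = ((Nz d : ℕ) : ℝ) := h3.symm
    rw [h5]
    push_cast
    rfl
  rw [h4]
  exact pers_odd hA (Nz_odd h2)

theorem val_int_lt (hA : Two A) {n : ℤ} (h : (2 : ℤ) ∣ n) : A.valuation (n : ℂ) < 1 := by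
  obtain ⟨m, rfl⟩ := h
  have h1 : A.valuation ((m : ℤ) : ℂ) ≤ 1 := by
    rw [A.valuation_le_one_iff]
    exact intCast_mem A m
  push_cast
  rw [map_mul]
  exact mul_lt_one_of_lt_of_le (S3.v_two_lt hA) h1

end val

/-- A rational number which is a unit above `2`, or is in the maximal ideals. -/
theorem rat_par {x : ℝ} {q : ℚ} (hx : x = (q : ℝ)) {b : Prop}
    (h1 : b → ∀ A : ValuationSubring ℂ, Two A → A.valuation (x : ℂ) = 1)
    (h0 : ¬ b → ∀ A : ValuationSubring ℂ, Two A → A.valuation (x : ℂ) < 1) :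
    ¬ 2 ∣ q.den ∧ (¬ (2 : ℤ) ∣ q.num ↔ b) := by
  obtain ⟨A, hA⟩ := s3_exists
  have hle : A.valuation (x : ℂ) ≤ 1 := by
    by_cases hb : b
    · exact (h1 hb A hA).le
    · exact (h0 hb A hA).le
  have hxq : (x : ℂ) = (q.num : ℂ) / (q.den : ℂ) := by
    rw [hx, Complex.ofReal_ratCast]
    exact Rat.cast_def q
  have hd : ¬ 2 ∣ q.den := by
    intro h
    have hn : Odd q.num := by
      rw [← Int.not_even_iff_odd]
      intro he
      have h4 : 2 ∣ q.num.natAbs := by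
        have h5 := even_iff_two_dvd.1 he
        omega
      have h3 := Nat.dvd_gcd h4 h
      rw [Nat.Coprime.gcd_eq_one q.reduced] at h3
      omega
    have h3 : A.valuation ((q.den : ℕ) : ℂ) < 1 := by
      have := val_int_lt hA (n := (q.den : ℤ)) (by exact_mod_cast h)
      simpa using this
    have h4 : A.valuation ((q.num : ℤ) : ℂ) = 1 := S3.v_odd hA hn
    have h5 : (x : ℂ) * (q.den : ℂ) = (q.num : ℂ) := by
      rw [hxq, div_mul_cancel₀]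
      exact_mod_cast q.den_nz
    have h6 := congrArg A.valuation h5
    rw [map_mul, h4, mul_comm] at h6
    have h7 := mul_lt_one_of_lt_of_le h3 hle
    rw [h6] at h7
    exact lt_irrefl _ h7
  have hdu : A.valuation ((q.den : ℕ) : ℂ) = 1 := by
    refine pers_odd hA ?_
    rw [← Nat.not_even_iff_odd]
    exact fun h => hd (even_iff_two_dvd.1 h)
  have hv : A.valuation (x : ℂ) = A.valuation ((q.num : ℤ) : ℂ) := by
    rw [hxq, map_div₀, hdu, div_one]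
  refine ⟨hd, fun hn => ?_, fun hb hn => ?_⟩
  · by_contra hb
    have h2 := h0 hb A hA
    rw [hv, S3.v_odd hA (by rw [← Int.not_even_iff_odd]; exact fun h => hn (even_iff_two_dvd.1 h))] at h2
    exact lt_irrefl _ h2
  · have h2 := h1 hb A hA
    rw [hv] at h2
    have h3 := val_int_lt hA hn
    rw [h2] at h3
    exact lt_irrefl _ h3

private theorem pers_Lsq {L κ : ℂ} (n : ℕ) (hκ0 : κ ≠ 0) :
    ‖L‖ ^ 2 = ‖L * 6 / (Om * κ * 2 ^ n)‖ ^ 2 * (‖Om‖ ^ 2 * ‖κ‖ ^ 2) * 4 ^ n / 36 := by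
  have h1 : ‖Om‖ ≠ 0 := norm_ne_zero_iff.2 Om_ne_zero
  have h2 : ‖κ‖ ≠ 0 := norm_ne_zero_iff.2 hκ0
  have h4 : (4 : ℝ) ^ n = 2 ^ n * 2 ^ n := by
    rw [← mul_pow]
    norm_num
  rw [norm_div, norm_mul, norm_mul, norm_mul, norm_pow, h4]
  have h6 : ‖(6 : ℂ)‖ = 6 := by norm_num
  have h7 : ‖(2 : ℂ)‖ = 2 := by norm_num
  rw [h6, h7]
  have h8 : (2 : ℝ) ^ n ≠ 0 := by positivity
  field_simp
  norm_num

private theorem pers_g {g1 L : ℂ} {δ : 𝓞 K}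
    (hg : g1 * (if s3 ∣ δ then 4 / 3 else 1) = L * (starRingEnd ℂ) L) :
    g1 = ((‖L‖ ^ 2 * (if s3 ∣ δ then 3 / 4 else 1) : ℝ) : ℂ) := by
  have h1 : L * (starRingEnd ℂ) L = ((‖L‖ ^ 2 : ℝ) : ℂ) := by
    rw [Complex.mul_conj, Complex.normSq_eq_norm_sq]
  rw [h1] at hg
  split_ifs at hg ⊢
  · rw [Complex.ofReal_mul, ← hg]
    push_cast
    ring
  · rw [mul_one] at hg
    rw [hg, mul_one]

/-- The rationality of the normalised value. -/
theorem rat_x {δ : 𝓞 K} (hsq : Squarefree δ) {ε L g1 : ℂ} (hε : ε ^ 3 = 1 / 2)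
    (hg : g1 * (if s3 ∣ δ then 4 / 3 else 1) = L * (starRingEnd ℂ) L)
    (hrat : ∃ q : ℚ, ‖L‖ ^ 2 * ‖em δ‖ = (q : ℝ) * (‖Om‖ * ‖ε‖) ^ 2) {x : ℝ} {T : ℕ} (hT0 : T ≠ 0)
    (hx : g1 * (√|(discr K : ℝ)| : ℝ) / (period (cv (δ : K)) : ℝ) =
      (x * ((T : ℝ) / 16) : ℝ)) : ∃ q : ℚ, x = (q : ℝ) := by
  obtain ⟨q, hq⟩ := rat_gen hsq hε hg hrat
  have hε0 : ε ≠ 0 := by
    rintro rfl
    norm_num at hε
  have hδ0 : em δ ≠ 0 := by
    rw [MP_1a91b9_ntH.em, Ne, map_eq_zero]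
    exact fun h => hsq.ne_zero (RingOfIntegers.ext h)
  have hn0 : 0 < ‖em δ‖ := norm_pos_iff.2 hδ0
  have hOm : 0 < ‖Om‖ := norm_pos_iff.2 Om_ne_zero
  have he : 0 < ‖ε‖ := norm_pos_iff.2 hε0
  have hδK : (δ : K) ≠ 0 := fun h => hsq.ne_zero (RingOfIntegers.ext h)
  have hem : ‖embK (δ : K)‖ = ‖em δ‖ := rfl
  have hP := prod_perAt_cv hδK hε
  rw [hem] at hP
  have hper := period_cvE hsq hε
  have hP0 : 0 < √3 * (‖Om‖ ^ 2 * ‖ε‖ ^ 2 / ‖em δ‖) := by positivity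
  rw [hq, hP, hper] at hx
  have hx2 : ((q : ℝ) * (√3 * (‖Om‖ ^ 2 * ‖ε‖ ^ 2 / ‖em δ‖)) /
      ((if s3 ∣ δ then 3 else 1) * (√3 * (‖Om‖ ^ 2 * ‖ε‖ ^ 2 / ‖em δ‖))) : ℝ) = x * ((T : ℝ) / 16) := by
    apply Complex.ofReal_injective
    rw [← hx]
    push_cast
    rfl
  have hT : (T : ℝ) ≠ 0 := by exact_mod_cast hT0
  refine ⟨q / (if s3 ∣ δ then 3 else 1) * 16 / T, ?_⟩
  have h16 : x = (x * ((T : ℝ) / 16)) * 16 / T := by
    field_simp
  rw [h16, ← hx2]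
  split_ifs
  · push_cast
    field_simp
  · push_cast
    field_simp

/-- The formula modulo `2`, `δ` odd. -/
theorem formula_odd {δ : 𝓞 K} (hsq : Squarefree δ) (h2 : (2 : 𝓞 K) ∣ δ - 1) {r : ℕ}
    {ε κ L g1 : ℂ} (hε : ε ^ 3 = 1 / 2) {ρ : ℝ} (hρ : 0 < ρ)
    (hρA : ∀ A : ValuationSubring ℂ, Two A → A.valuation (ρ : ℂ) = 1)
    (hκ : ‖κ‖ ^ 2 = ρ * ‖ε‖ ^ 2)
    (hg : g1 * (if s3 ∣ δ then 4 / 3 else 1) = L * (starRingEnd ℂ) L)
    {b : Prop}
    (h1 : b → ∀ A : ValuationSubring ℂ, Two A → A.valuation (L * 6 / (Om * κ * 2 ^ r)) = 1)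
    (h0 : ¬ b → ∀ A : ValuationSubring ℂ, Two A → A.valuation (L * 6 / (Om * κ * 2 ^ r)) < 1)
    {t T : ℕ} (ht : Odd t)
    (hT : T * (if s3 ∣ δ then 4 else 1) = 4 ^ (r + 1) * t)
    (hrat : ∃ q : ℚ, ‖L‖ ^ 2 * ‖em δ‖ = (q : ℝ) * (‖Om‖ * ‖ε‖) ^ 2) :
    ∃ q : ℚ, ¬ 2 ∣ q.den ∧ (¬ (2 : ℤ) ∣ q.num ↔ b) ∧
      g1 * (√|(discr K : ℝ)| : ℝ) / (period (cv (δ : K)) : ℝ) = ((q : ℝ) * ((T : ℝ) / 16) : ℝ) := by
  have hε0 : ε ≠ 0 := by
    rintro rfl
    norm_num at hε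
  have he : 0 < ‖ε‖ := norm_pos_iff.2 hε0
  have hκ0 : κ ≠ 0 := by
    rintro rfl
    rw [norm_zero] at hκ
    have h3 : 0 < ρ * ‖ε‖ ^ 2 := by positivity
    rw [← hκ] at h3
    norm_num at h3
  have hδ0 : em δ ≠ 0 := by
    rw [MP_1a91b9_ntH.em, Ne, map_eq_zero]
    exact fun h => hsq.ne_zero (RingOfIntegers.ext h)
  have hn0 : 0 < ‖em δ‖ := norm_pos_iff.2 hδ0
  have hOm : 0 < ‖Om‖ := norm_pos_iff.2 Om_ne_zero
  obtain ⟨ν, hνd⟩ : ∃ ν, ν = L * 6 / (Om * κ * 2 ^ r) := ⟨_, rfl⟩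
  rw [← hνd] at h1 h0
  have ht0 : (t : ℝ) ≠ 0 := by
    rintro h
    have : t = 0 := by exact_mod_cast h
    rw [this] at ht
    exact absurd ht (by decide)
  have hT0 : T ≠ 0 := by
    rintro rfl
    rw [zero_mul] at hT
    have h3 : 0 < 4 ^ (r + 1) * t := Nat.mul_pos (by positivity) ht.pos
    rw [← hT] at h3
    exact lt_irrefl _ h3
  have hval : ∀ A : ValuationSubring ℂ, Two A →
      A.valuation ((ρ * ‖ν‖ ^ 2 * ‖em δ‖ / (9 * t) : ℝ) : ℂ) = A.valuation ((‖ν‖ ^ 2 : ℝ) : ℂ) := by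
    intro A hA
    have e3 : A.valuation (9 : ℂ) = 1 := by
      have := pers_odd hA (n := 9) (by decide)
      simpa using this
    have e4 : (((ρ * ‖ν‖ ^ 2 * ‖em δ‖ / (9 * t) : ℝ)) : ℂ) =
        (ρ : ℂ) * ((‖ν‖ ^ 2 : ℝ) : ℂ) * ((‖em δ‖ : ℝ) : ℂ) / (9 * (t : ℂ)) := by
      push_cast
      ring
    rw [e4, map_div₀, map_mul, map_mul, map_mul, norm_em_unit hA h2, pers_odd hA ht, e3, hρA A hA,
      one_mul, mul_one, mul_one, div_one]
  have hid : g1 * (√|(discr K : ℝ)| : ℝ) / (period (cv (δ : K)) : ℝ) =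
      ((ρ * ‖ν‖ ^ 2 * ‖em δ‖ / (9 * t)) * ((T : ℝ) / 16) : ℝ) := by
    have hper := period_cv hsq h2 hε
    rw [pers_g hg, sqrt_discr_K, hper, ← Complex.ofReal_mul, ← Complex.ofReal_div,
      pers_Lsq r hκ0, ← hνd, hκ]
    congr 1
    have h3 : (√3 : ℝ) ≠ 0 := by positivity
    by_cases hd : s3 ∣ δ
    · rw [if_pos hd] at hT
      have hT' : (T : ℝ) = 4 ^ r * t := by
        have h5 : T = 4 ^ r * t := by
          have h6 : 4 ^ (r + 1) * t = (4 ^ r * t) * 4 := by ring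
          rw [h6] at hT
          omega
        rw [h5]
        push_cast
        rfl
      rw [if_pos hd, if_pos hd, hT']
      push_cast
      field_simp
      ring
    · rw [if_neg hd, mul_one] at hT
      have hT' : (T : ℝ) = 4 * 4 ^ r * t := by
        rw [hT]
        push_cast
        ring
      rw [if_neg hd, if_neg hd, hT']
      push_cast
      field_simp
      ring
  obtain ⟨q, hq⟩ := rat_x hsq hε hg hrat hT0 hid
  have h3 := rat_par hq (b := b) (fun hb A hA => by rw [hval A hA]; exact normsq_unit hA (h1 hb))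
    (fun hb A hA => by rw [hval A hA]; exact normsq_lt hA (h0 hb))
  refine ⟨q, h3.1, h3.2, ?_⟩
  rw [hid, hq]

/-- The formula modulo `2`, `δ = 2 d`. -/
theorem formula_even {δ d : 𝓞 K} (hsq : Squarefree δ) (hδd : δ = 2 * d) (h2 : (2 : 𝓞 K) ∣ d - 1)
    {r : ℕ} {ε κ L g1 : ℂ} (hε : ε ^ 3 = 1 / 2) {ρ : ℝ} (hρ : 0 < ρ)
    (hρA : ∀ A : ValuationSubring ℂ, Two A → A.valuation (ρ : ℂ) = 1)
    (hκ : ‖κ‖ ^ 2 = 2 * ρ * ‖ε‖ ^ 2)
    (hg : g1 * (if s3 ∣ δ then 4 / 3 else 1) = L * (starRingEnd ℂ) L)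
    {b : Prop}
    (h1 : b → ∀ A : ValuationSubring ℂ, Two A → A.valuation (L * 6 / (Om * κ * 2 ^ r)) = 1)
    (h0 : ¬ b → ∀ A : ValuationSubring ℂ, Two A → A.valuation (L * 6 / (Om * κ * 2 ^ r)) < 1)
    {t T : ℕ} (ht : Odd t)
    (hT : T * (if s3 ∣ δ then 4 else 1) = 4 ^ (r + 2) * t)
    (hrat : ∃ q : ℚ, ‖L‖ ^ 2 * ‖em δ‖ = (q : ℝ) * (‖Om‖ * ‖ε‖) ^ 2) :
    ∃ q : ℚ, ¬ 2 ∣ q.den ∧ (¬ (2 : ℤ) ∣ q.num ↔ b) ∧
      g1 * (√|(discr K : ℝ)| : ℝ) / (period (cv (δ : K)) : ℝ) = ((q : ℝ) * ((T : ℝ) / 16) : ℝ) := by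
  have hε0 : ε ≠ 0 := by
    rintro rfl
    norm_num at hε
  have he : 0 < ‖ε‖ := norm_pos_iff.2 hε0
  have hκ0 : κ ≠ 0 := by
    rintro rfl
    rw [norm_zero] at hκ
    have h3 : 0 < 2 * ρ * ‖ε‖ ^ 2 := by positivity
    rw [← hκ] at h3
    norm_num at h3
  have hd0 : em d ≠ 0 := by
    rw [MP_1a91b9_ntH.em, Ne, map_eq_zero]
    intro h
    have h1 : d = 0 := RingOfIntegers.ext h
    exact hsq.ne_zero (by rw [hδd, h1, mul_zero])
  have hn0 : 0 < ‖em d‖ := norm_pos_iff.2 hd0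
  have hem2 : MP_1a91b9_ntH.em 2 = 2 := by
    have h : (((2 : ℤ) : 𝓞 K) : K) = ((2 : ℤ) : K) := map_intCast (algebraMap (𝓞 K) K) 2
    have h1 : MP_1a91b9_ntH.em ((2 : ℤ) : 𝓞 K) = ((2 : ℤ) : ℂ) := by
      rw [MP_1a91b9_ntH.em, h, map_intCast]
    simpa using h1
  have hemm : MP_1a91b9_ntH.em (2 * d) = MP_1a91b9_ntH.em 2 * MP_1a91b9_ntH.em d := by
    rw [MP_1a91b9_ntH.em, MP_1a91b9_ntH.em, MP_1a91b9_ntH.em, ← map_mul]
    rfl
  have hnδ : ‖em δ‖ = 2 * ‖em d‖ := by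
    rw [hδd, hemm, norm_mul, hem2]
    norm_num
  have hOm : 0 < ‖Om‖ := norm_pos_iff.2 Om_ne_zero
  obtain ⟨ν, hνd⟩ : ∃ ν, ν = L * 6 / (Om * κ * 2 ^ r) := ⟨_, rfl⟩
  rw [← hνd] at h1 h0
  have ht0 : (t : ℝ) ≠ 0 := by
    rintro h
    have : t = 0 := by exact_mod_cast h
    rw [this] at ht
    exact absurd ht (by decide)
  have hT0 : T ≠ 0 := by
    rintro rfl
    rw [zero_mul] at hT
    have h3 : 0 < 4 ^ (r + 2) * t := Nat.mul_pos (by positivity) ht.pos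
    rw [← hT] at h3
    exact lt_irrefl _ h3
  have hval : ∀ A : ValuationSubring ℂ, Two A →
      A.valuation ((ρ * ‖ν‖ ^ 2 * ‖em d‖ / (9 * t) : ℝ) : ℂ) = A.valuation ((‖ν‖ ^ 2 : ℝ) : ℂ) := by
    intro A hA
    have e3 : A.valuation (9 : ℂ) = 1 := by
      have := pers_odd hA (n := 9) (by decide)
      simpa using this
    have e4 : (((ρ * ‖ν‖ ^ 2 * ‖em d‖ / (9 * t) : ℝ)) : ℂ) =
        (ρ : ℂ) * ((‖ν‖ ^ 2 : ℝ) : ℂ) * ((‖em d‖ : ℝ) : ℂ) / (9 * (t : ℂ)) := by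
      push_cast
      ring
    rw [e4, map_div₀, map_mul, map_mul, map_mul, norm_em_unit hA h2, pers_odd hA ht, e3, hρA A hA,
      one_mul, mul_one, mul_one, div_one]
  have hid : g1 * (√|(discr K : ℝ)| : ℝ) / (period (cv (δ : K)) : ℝ) =
      ((ρ * ‖ν‖ ^ 2 * ‖em d‖ / (9 * t)) * ((T : ℝ) / 16) : ℝ) := by
    have hper := period_cvE hsq hε
    rw [pers_g hg, sqrt_discr_K, hper, ← Complex.ofReal_mul, ← Complex.ofReal_div,
      pers_Lsq r hκ0, ← hνd, hκ, hnδ]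
    congr 1
    have h3 : (√3 : ℝ) ≠ 0 := by positivity
    by_cases hd : s3 ∣ δ
    · rw [if_pos hd] at hT
      have hT' : (T : ℝ) = 4 * 4 ^ r * t := by
        have h5 : T = 4 * 4 ^ r * t := by
          have h6 : 4 ^ (r + 2) * t = (4 * 4 ^ r * t) * 4 := by ring
          rw [h6] at hT
          omega
        rw [h5]
        push_cast
        rfl
      rw [if_pos hd, if_pos hd, hT']
      push_cast
      field_simp
      ring
    · rw [if_neg hd, mul_one] at hT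
      have hT' : (T : ℝ) = 16 * 4 ^ r * t := by
        rw [hT]
        push_cast
        ring
      rw [if_neg hd, if_neg hd, hT']
      push_cast
      field_simp
      ring
  obtain ⟨q, hq⟩ := rat_x hsq hε hg hrat hT0 hid
  have h3 := rat_par hq (b := b) (fun hb A hA => by rw [hval A hA]; exact normsq_unit hA (h1 hb))
    (fun hb A hA => by rw [hval A hA]; exact normsq_lt hA (h0 hb))
  refine ⟨q, h3.1, h3.2, ?_⟩
  rw [hid, hq]

end Pool.Agent.Lib.MP_1a91b9_ntS
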